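import Pool.Agent.Y944.LIS.AS

/-!
# The longest increasing subsequence of a random walk is almost surely `O(√n (log n)^5)`

For every random walk `S k = X 0 + ... + X (k - 1)` with i.i.d. real steps of mean zero and finite
positive variance there is a constant `C` such that almost surely the longest weakly increasing
subsequence of `S 0, ..., S (n - 1)` has length at most `C √n (log n)^5` for all large `n`; for
every large `n` this fails with probability at most `C / (log n)^2`.

`Pool.Agent.W844.LIS.lis s n` is the length of the longest weakly increasing subsequence of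
`s 0, ..., s (n - 1)`: the largest number of elements of a set of indices below `n` on which `s` is
nondecreasing.

The result `Pool/Agent/Results/MP_05a99f_pr/PolylogLIS.lean` has the bound `√n (log n)^a`, `a > 5`,
with probability tending to one. New: Kolmogorov's maximal inequality makes the bad events at the
scales `4^K` summable, and the exponent is `5` itself.
-/

set_option autoImplicit false

open MeasureTheory ProbabilityTheory Filter Topology

namespace Pool.Agent.Results.MP_05a99f_pr.AlmostSureBound

theorem result {Ω : Type*} [MeasurableSpace Ω] (μ : Measure Ω) [IsProbabilityMeasure μ]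
    (X : ℕ → Ω → ℝ) (hmeas : ∀ i, Measurable (X i)) (hindep : iIndepFun X μ)
    (hident : ∀ i, IdentDistrib (X i) (X 0) μ μ) (hsq : MemLp (X 0) 2 μ)
    (hmean : ∫ ω, X 0 ω ∂μ = 0) (hvar : 0 < Var[X 0; μ]) :
    ∃ C : ℝ, 0 < C ∧
      (∀ᵐ ω ∂μ, ∀ᶠ n : ℕ in atTop,
        (Pool.Agent.W844.LIS.lis (fun k => ∑ i ∈ Finset.range k, X i ω) n : ℝ) ≤
          C * (√n * (Real.log n) ^ 5)) ∧
      ∀ᶠ n : ℕ in atTop,
        μ {ω | C * (√n * (Real.log n) ^ 5) <
            (Pool.Agent.W844.LIS.lis (fun k => ∑ i ∈ Finset.range k, X i ω) n : ℝ)} ≤
          ENNReal.ofReal (C / (Real.log n) ^ 2) := by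
  have hw : Pool.Agent.W844.LIS.Walk μ X :=
    { prob := inferInstance
      meas := hmeas
      indep := hindep
      ident := hident
      sq := hsq
      mean := hmean
      var := by
        rw [variance_of_integral_eq_zero (hmeas 0).aemeasurable hmean] at hvar
        exact hvar }
  exact Pool.Agent.Y944.LIS.main hw

end Pool.Agent.Results.MP_05a99f_pr.AlmostSureBound
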